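import Pool.Agent.E8helper71.CP.Pre

/-!
# Project BI: strong uniform boundedness for bicritical maps. Definitions

The language is that of `Pool.Agent.TH951.W.UH.L1` - `L9`: a map of degree `d` is given by a
homogeneous map `S.F` of `Ω × Ω`, where `Ω` is an algebraically closed ultrametric field.
-/

namespace Pool.Agent.E8helper71.CP.Y706.BI

open Pool.Agent.TH951.W.UB Pool.Agent.TH951.W.UG Pool.Agent.TH951.W.UH Finset Polynomial

universe u v w

section local_part

/-- vectors of norm one -/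
abbrev UV (Ω : Type u) [NormedField Ω] := {X : Ω × Ω // ‖X‖ = 1}

variable {Ω : Type u} [NormedField Ω]

lemma UV.ne (X : UV Ω) : X.1 ≠ 0 := by
  intro h
  have := X.2
  rw [h, norm_zero] at this
  exact zero_ne_one this

/-- the vector `W` divided by a scalar of the same size -/
noncomputable def nrm (W : Ω × Ω) (hW : W ≠ 0) : UV Ω :=
  ⟨(exists_unit W hW).choose_spec.choose, (exists_unit W hW).choose_spec.choose_spec.2.1⟩

lemma nrm_spec (W : Ω × Ω) (hW : W ≠ 0) : ∃ t : Ω, t ≠ 0 ∧ W = t • (nrm W hW).1 ∧ ‖t‖ = ‖W‖ :=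
  ⟨(exists_unit W hW).choose, (exists_unit W hW).choose_spec.choose_spec.1,
    (exists_unit W hW).choose_spec.choose_spec.2.2⟩

/-- the same point of the projective line -/
def eqv (X Y : UV Ω) : Prop := wd X.1 Y.1 = 0

/-- the map on vectors of norm one -/
noncomputable def fU (S : HS Ω) (X : UV Ω) : UV Ω := nrm (S.F X.1) (S.nz X.1 X.ne)

/-- the size of the map -/
noncomputable def hh (S : HS Ω) (X : UV Ω) : ℝ := Real.log ‖S.F X.1‖

/-- the Green function (on vectors of norm one) -/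
noncomputable def G0 (S : HS Ω) (X : UV Ω) : ℝ :=
  ∑' n : ℕ, hh S ((fU S)^[n] X) / (S.d : ℝ) ^ (n + 1)

/-- the pairing -/
noncomputable def gg (S : HS Ω) (X Y : UV Ω) : ℝ :=
  -Real.log ‖wd X.1 Y.1‖ + G0 S X + G0 S Y + S.Res / (S.d * ((S.d : ℝ) - 1))

/-- roots -/
noncomputable def rt (S : HS Ω) (Y : UV Ω) (l : Fin S.d) : UV Ω :=
  ⟨(S.roots Y.1 Y.2).choose_spec.choose l,
    (S.roots Y.1 Y.2).choose_spec.choose_spec.2.1 l⟩

/-- the roots `rt S Y` are a root system -/
lemma rt_spec (S : HS Ω) (Y : UV Ω) :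
    S.IsRS Y.1 (S.roots Y.1 Y.2).choose (fun l => (rt S Y l).1) :=
  (S.roots Y.1 Y.2).choose_spec.choose_spec

/-- the average over the roots -/
noncomputable def Av {X : Type*} {d : ℕ} (r : X → Fin d → X) (φ : X → ℝ) (y : X) : ℝ :=
  (∑ l, φ (r y l)) / (d : ℝ)

end local_part

end Pool.Agent.E8helper71.CP.Y706.BI
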