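import Pool.Agent.E8helper71.CP.Y706.BI.Defs

/-!
# Project BI: the statements of the jobs
-/

namespace Pool.Agent.E8helper71.CP.Y706.BI

open Pool.Agent.TH951.W.UB Pool.Agent.TH951.W.UG Pool.Agent.TH951.W.UH Finset Polynomial

universe u v w

open Classical in
/-- LLN: the law of large numbers (abstract) -/
def S_LLN : Prop := ∀ (X : Type u) (d : ℕ), 2 ≤ d → ∀ (f : X → X) (r : X → Fin d → X)
  (E : X → X → Prop), Equivalence E → (∀ x y, E x y → E (f x) (f y)) →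
  (∀ y l, E (f (r y l)) y) → ∀ g : X → X → ℝ, (∀ x y, g x y = g y x) →
  (∀ x x' y, E x x' → g x y = g x' y) →
  (∀ x y, ¬ E (f x) y → ∑ l, g x (r y l) = g (f x) y) →
  ∀ ρ : ℝ, 0 < ρ → (∀ x y, ¬ E x y → -(2 * ρ) ≤ g x y) →
  ∀ (c₁ c₂ : X) (L κ : ℝ), ρ / 4 ≤ L → 0 ≤ κ → κ ≤ d → ∀ (b : X) (n : ℕ),
  (∀ j ≤ n, (¬ E (f^[j] c₁) b ∧ g (f^[j] c₁) b ≤ 2 * ρ) ∧
    ¬ E (f^[j] c₂) b ∧ g (f^[j] c₂) b ≤ 2 * ρ) →
  ∀ J : ℕ, 1 ≤ J → J ≤ n →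
  (Av r)^[n] (fun y => if ∑ j ∈ range J, (L - κ * (g (f^[j] y) c₁ + g (f^[j] y) c₂)) ≤
    J * L / 2 then (1 : ℝ) else 0) b ≤ 20000 * (d : ℝ) ^ 4 / J

/-- TREE: iterated roots form a root system of the iterate -/
def S_TREE : Prop := ∀ (Ω : Type u) [NormedField Ω] [IsUltrametricDist Ω] [IsAlgClosed Ω]
  (S : HS Ω) (b : UV Ω) (n : ℕ), ∃ (c : Ω) (η : Fin (S.iter n).d → UV Ω),
  (S.iter n).IsRS b.1 c (fun l => (η l).1) ∧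
  (∀ φ : UV Ω → ℝ, (Av (rt S))^[n] φ b = (∑ l, φ (η l)) / ((S.iter n).d : ℝ)) ∧
  ∀ l, eqv ((fU S)^[n] (η l)) b

/-- SLK: the slack at a bad place with a partial colouring -/
def S_SLK : Prop := ∀ (k : Type v) (K : Type u) [Field k] [Field K] [Algebra k K]
  [DecidableEq K] (Q : PlaceData.{w} k K) (v : Q.Pl) (d : ℕ) (P : Finset K) (a : K → ℝ) (ρ : ℝ)
  (L : LD Q v d P a ρ), 2 ≤ d → ∀ m : ℕ, 0 < m → ∀ z : Fin (2 * m) → K, (∀ i, z i ∈ P) →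
  Function.Injective z → ∀ b : Fin (2 * m), cdet Q m z b ≠ 0 →
  ∀ (c : ℕ) (χ : Fin (2 * m) → Fin c) (Gs : Finset (Fin (2 * m))) (lam : ℝ), (L.R : ℝ) ≤ lam →
  (∀ i ∈ Gs, ∀ j ∈ Gs, i ≠ j → χ i = χ j → lam ≤ GG Q v a ρ (z i) (z j)) →
  ((Gs.card : ℝ) - c) * (lam - L.R) - 4 * m * L.R - 8 * m - 4 * Q.loss v * ((m : ℝ) - 1) ≤
    Sl Q v a ρ m z b

end Pool.Agent.E8helper71.CP.Y706.BI
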